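import Mathlib
import Pool.Agent.U37.LC.Stm2

/-!
Project LC, job Fibre: `W† Φ_z W` is decomposable with the fibres `T κ`.
-/

set_option autoImplicit false

open MeasureTheory Filter Topology Complex
open scoped ComplexConjugate InnerProductSpace BoundedContinuousFunction

namespace Pool.Agent.U924.LC

open Pool.Agent.U37.LC

theorem fib_mp1 : MeasurePreserving (fun p : ℝ × ℤ => p.1 + (p.2 : ℝ))
    (((volume : Measure ℝ).restrict (Set.Ioo (0 : ℝ) 1)).prod (Measure.count : Measure ℤ))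
    volume := by
  have hm : Measurable (fun p : ℝ × ℤ => p.1 + (p.2 : ℝ)) := by
    refine measurable_fst.add ?_
    exact (measurable_from_top (f := fun n : ℤ => (n : ℝ))).comp measurable_snd
  have hr : (volume : Measure ℝ).restrict (Set.Ioo (0 : ℝ) 1) =
      (volume : Measure ℝ).restrict (Set.Ico (0 : ℝ) 1) :=
    Measure.restrict_congr_set Ioo_ae_eq_Ico
  refine ⟨hm, ?_⟩
  rw [hr]
  ext s hs
  rw [Measure.map_apply hm hs, Measure.prod_apply_symm (hm hs), lintegral_count]
  have h1 : ∀ n : ℤ, ((volume : Measure ℝ).restrict (Set.Ico (0 : ℝ) 1))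
      ((fun x : ℝ => (x, n)) ⁻¹' ((fun p : ℝ × ℤ => p.1 + (p.2 : ℝ)) ⁻¹' s)) =
      volume (s ∩ Set.Ico (n : ℝ) (n + 1)) := by
    intro n
    have e1 : ((fun x : ℝ => (x, n)) ⁻¹' ((fun p : ℝ × ℤ => p.1 + (p.2 : ℝ)) ⁻¹' s)) =
        (fun x : ℝ => x + (n : ℝ)) ⁻¹' s := rfl
    have hms : MeasurableSet ((fun x : ℝ => x + (n : ℝ)) ⁻¹' s) :=
      (measurable_id.add_const (n : ℝ)) hs
    rw [e1, Measure.restrict_apply hms]
    have e2 : (fun x : ℝ => x + (n : ℝ)) ⁻¹' s ∩ Set.Ico (0 : ℝ) 1 =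
        (fun x : ℝ => x + (n : ℝ)) ⁻¹' (s ∩ Set.Ico (n : ℝ) (n + 1)) := by
      ext x
      simp only [Set.mem_inter_iff, Set.mem_preimage, Set.mem_Ico]
      constructor
      · rintro ⟨h1, h2, h3⟩
        exact ⟨h1, by linarith, by linarith⟩
      · rintro ⟨h1, h2, h3⟩
        exact ⟨h1, by linarith, by linarith⟩
    rw [e2, measure_preimage_add_right]
  rw [tsum_congr h1, ← measure_iUnion]
  · rw [← Set.inter_iUnion, iUnion_Ico_intCast, Set.inter_univ]
  · intro i j hij
    have := Set.pairwise_disjoint_Ico_intCast ℝ hij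
    exact this.mono Set.inter_subset_right Set.inter_subset_right
  · intro n
    exact hs.inter measurableSet_Ico

instance : SFinite nu := by
  unfold nu
  infer_instance

theorem fib_mp : MeasurePreserving (fun p : ℝ × (ℤ × ℝ) => (p.1 + (p.2.1 : ℝ), p.2.2))
    (((volume : Measure ℝ).restrict (Set.Ioo (0 : ℝ) 1)).prod nu)
    (volume : Measure (ℝ × ℝ)) := by
  have h1 := (fib_mp1.prod (MeasurePreserving.id (volume : Measure ℝ))).comp
    (MeasurePreserving.symm _ (measurePreserving_prodAssoc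
      ((volume : Measure ℝ).restrict (Set.Ioo (0 : ℝ) 1)) (Measure.count : Measure ℤ)
      (volume : Measure ℝ)))
  exact h1

theorem jobFibre : JobFibre := by
  intro L θ X Y hC hθ W hW z hz Φ hΦ T hT hTf y
  -- the candidate
  obtain ⟨M, hM⟩ : ∃ M : ℝ, ∀ κ ∈ Set.Icc (0 : ℝ) 1, ‖T κ‖ ≤ M :=
    isCompact_Icc.exists_bound_of_continuousOn hT.continuousOn
  have hmeas : AEStronglyMeasurable (fun κ => T κ (y κ))
      ((volume : Measure ℝ).restrict (Set.Ioo (0 : ℝ) 1)) := by
    have h1 : AEStronglyMeasurable (fun κ : ℝ => (T κ, y κ))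
        ((volume : Measure ℝ).restrict (Set.Ioo (0 : ℝ) 1)) :=
      hT.aestronglyMeasurable.prodMk (Lp.aestronglyMeasurable y)
    exact (isBoundedBilinearMap_apply.continuous).comp_aestronglyMeasurable h1
  have hmem : MemLp (fun κ => T κ (y κ)) 2
      ((volume : Measure ℝ).restrict (Set.Ioo (0 : ℝ) 1)) := by
    refine MemLp.of_le_mul (c := M) (Lp.memLp y) hmeas ?_
    refine (ae_restrict_iff' measurableSet_Ioo).2 (Eventually.of_forall fun κ hκ => ?_)
    exact (ContinuousLinearMap.le_opNorm _ _).trans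
      (mul_le_mul_of_nonneg_right (hM κ ⟨hκ.1.le, hκ.2.le⟩) (norm_nonneg _))
  suffices h : ContinuousLinearMap.adjoint W (Φ (W y)) = hmem.toLp _ by
    rw [h]
    exact MemLp.coeFn_toLp _
  refine ext_inner_left ℂ fun w => ?_
  rw [ContinuousLinearMap.adjoint_inner_right, inner_L2]
  -- the integrand
  set F : ℝ × ℝ → ℂ := fun q => (1 / ((om θ q : ℂ) - z)) *
    (conj (cf L X Y q.1 q.2 (w (Int.fract q.1) : XX L)) *
      cf L X Y q.1 q.2 (y (Int.fract q.1) : XX L)) with hF
  have hae : (fun q => conj ((W w : ℝ × ℝ → ℂ) q) * (Φ (W y) : ℝ × ℝ → ℂ) q)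
      =ᵐ[volume] F := by
    filter_upwards [hW w, hW y, hΦ (W y)] with q h1 h2 h3
    rw [h1, h3, h2, hF]
    have hpos : 0 < 1 + om θ q := by
      have : 0 ≤ om θ q := by
        unfold om
        positivity
      linarith
    have hsq : (((1 + om θ q) ^ (-(1 / 2) : ℝ) : ℝ) : ℂ) *
        (((1 + om θ q) ^ (-(1 / 2) : ℝ) : ℝ) : ℂ) * ((1 + om θ q : ℝ) : ℂ) = 1 := by
      rw [← Complex.ofReal_mul, ← Complex.ofReal_mul, ← Real.rpow_add hpos]
      have : (-(1 / 2) : ℝ) + -(1 / 2) = -1 := by norm_num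
      rw [this, Real.rpow_neg_one, inv_mul_cancel₀ hpos.ne', Complex.ofReal_one]
    simp only [map_mul, Complex.conj_ofReal]
    calc _ = ((((1 + om θ q) ^ (-(1 / 2) : ℝ) : ℝ) : ℂ) *
        (((1 + om θ q) ^ (-(1 / 2) : ℝ) : ℝ) : ℂ) * ((1 + om θ q : ℝ) : ℂ)) *
        ((1 / ((om θ q : ℂ) - z)) *
        (conj (cf L X Y q.1 q.2 (w (Int.fract q.1) : XX L)) *
          cf L X Y q.1 q.2 (y (Int.fract q.1) : XX L))) := by ring
      _ = _ := by rw [hsq, one_mul]
  have hint : Integrable F volume := by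
    refine (L2.integrable_inner (𝕜 := ℂ) (W w) (Φ (W y))).congr ?_
    refine EventuallyEq.trans (Eventually.of_forall fun q => ?_) hae
    simp only [RCLike.inner_apply]
    rw [mul_comm]
  rw [integral_congr_ae hae, ← fib_mp.map_eq, integral_map fib_mp.measurable.aemeasurable
    (by rw [fib_mp.map_eq]; exact hint.aestronglyMeasurable),
    integral_prod (fun x : ℝ × (ℤ × ℝ) => F (x.1 + (x.2.1 : ℝ), x.2.2))
      ((fib_mp.integrable_comp hint.aestronglyMeasurable).2 hint), L2.inner_def]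
  refine integral_congr_ae ?_
  filter_upwards [MemLp.coeFn_toLp hmem, ae_restrict_mem measurableSet_Ioo] with κ h1 h2
  rw [h1, hTf]
  refine integral_congr_ae (Eventually.of_forall fun q => ?_)
  have hfr : Int.fract (κ + (q.1 : ℝ)) = κ := by
    rw [Int.fract_add_intCast]
    exact Int.fract_eq_self.2 ⟨h2.1.le, h2.2⟩
  simp only [hF, hfr]

end Pool.Agent.U924.LC
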