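import Mathlib
import Pool.Agent.U37.LC.Stm3
import Pool.Agent.U924.LC.Fibre

/-!
Project LC, job YG: the vectors generated by `W` are good.
-/

set_option autoImplicit false

open MeasureTheory Filter Topology Complex
open scoped ComplexConjugate InnerProductSpace BoundedContinuousFunction ENNReal

namespace Pool.Agent.U924.LC

open Pool.Agent.U37.LC

theorem om_nonneg (θ : ℝ) (q : ℝ × ℝ) : 0 ≤ om θ q := by
  unfold om
  positivity

theorem continuous_om (θ : ℝ) : Continuous (om θ) := by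
  unfold om
  fun_prop

/-- the bounded continuous symbol `(1 + om) / (om - z)` -/
noncomputable def phiSym (θ : ℝ) (z : ℂ) (hz : z.im ≠ 0) : (ℝ × ℝ) →ᵇ ℂ :=
  BoundedContinuousFunction.ofNormedAddCommGroup
    (fun q => ((1 + om θ q : ℝ) : ℂ) / ((om θ q : ℂ) - z))
    (by
      refine Continuous.div ?_ ?_ fun q => ?_
      · exact Complex.continuous_ofReal.comp (continuous_const.add (continuous_om θ))
      · exact (Complex.continuous_ofReal.comp (continuous_om θ)).sub continuous_const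
      · intro h
        have := congrArg Complex.im h
        simp at this
        exact hz this)
    (1 + ‖1 + z‖ / |z.im|)
    (by
      intro q
      have hne : ((om θ q : ℂ) - z) ≠ 0 := by
        intro h
        have := congrArg Complex.im h
        simp at this
        exact hz this
      have h1 : ((1 + om θ q : ℝ) : ℂ) / ((om θ q : ℂ) - z) =
          1 + (1 + z) / ((om θ q : ℂ) - z) := by
        field_simp
        push_cast
        ring
      have h2 : |z.im| ≤ ‖(om θ q : ℂ) - z‖ := by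
        have := Complex.abs_im_le_norm ((om θ q : ℂ) - z)
        simpa using this
      rw [h1]
      refine (norm_add_le _ _).trans ?_
      rw [norm_one, norm_div]
      gcongr)

theorem phi_isMul (θ : ℝ) (z : ℂ) (hz : z.im ≠ 0) :
    IsMul (fun q => ((1 + om θ q : ℝ) : ℂ) / ((om θ q : ℂ) - z))
      (mulB (volume : Measure (ℝ × ℝ)) (phiSym θ z hz)) := by
  intro v
  exact mulB_ae _ _ v

theorem compact_reg {L : ℝ} (α : ℝ) (T : ℂ → ℝ → XX L →L[ℂ] XX L) (s : Set (ℝ × ℝ))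
    (hs : IsCompact s) (h : ∀ p ∈ s, RegB α T p.1 p.2) :
    ∃ O : Set (ℝ × ℝ), IsOpen O ∧ s ⊆ O ∧ ∃ ε₀ : ℝ, 0 < ε₀ ∧ ∃ C : ℝ, ∀ p ∈ O, ∀ ε : ℝ,
      0 < ε → ε < ε₀ → IsUnit (1 - (α : ℂ) • T ((p.1 : ℂ) + ε * I) p.2) ∧
      ‖Ring.inverse (1 - (α : ℂ) • T ((p.1 : ℂ) + ε * I) p.2)‖ ≤ C := by
  refine hs.induction_on (p := fun s => ∃ O : Set (ℝ × ℝ), IsOpen O ∧ s ⊆ O ∧ ∃ ε₀ : ℝ,
      0 < ε₀ ∧ ∃ C : ℝ, ∀ p ∈ O, ∀ ε : ℝ,
      0 < ε → ε < ε₀ → IsUnit (1 - (α : ℂ) • T ((p.1 : ℂ) + ε * I) p.2) ∧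
      ‖Ring.inverse (1 - (α : ℂ) • T ((p.1 : ℂ) + ε * I) p.2)‖ ≤ C) ?_ ?_ ?_ ?_
  · exact ⟨∅, isOpen_empty, subset_rfl, 1, one_pos, 0, fun p hp => absurd hp (by simp)⟩
  · rintro s t hst ⟨O, hO, hsO, h⟩
    exact ⟨O, hO, hst.trans hsO, h⟩
  · rintro s t ⟨O, hO, hsO, e, he, C, h⟩ ⟨O', hO', hsO', e', he', C', h'⟩
    refine ⟨O ∪ O', hO.union hO', Set.union_subset_union hsO hsO', min e e', lt_min he he',
      max C C', ?_⟩
    rintro p (hp | hp) ε hε hε2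
    · obtain ⟨h1, h2⟩ := h p hp ε hε (hε2.trans_le (min_le_left _ _))
      exact ⟨h1, h2.trans (le_max_left _ _)⟩
    · obtain ⟨h1, h2⟩ := h' p hp ε hε (hε2.trans_le (min_le_right _ _))
      exact ⟨h1, h2.trans (le_max_right _ _)⟩
  · intro p hp
    obtain ⟨O, hO, e, he, C, h⟩ := h p hp
    obtain ⟨O', hO', hO'o, hpO'⟩ := mem_nhds_iff.1 hO
    refine ⟨O', mem_nhdsWithin_of_mem_nhds (hO'o.mem_nhds hpO'), O', hO'o, subset_rfl, e, he, C, ?_⟩
    intro q hq ε hε hε2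
    exact h q (hO' hq) ε hε hε2

theorem inv_bound {V : Type*} [NormedAddCommGroup V] [NormedSpace ℂ V] (A : V →L[ℂ] V)
    (α : ℝ) (hα : 0 < α) (C : ℝ) (hu : IsUnit (1 - (α : ℂ) • A))
    (hC : ‖Ring.inverse (1 - (α : ℂ) • A)‖ ≤ C) (x v : V) (h : v = A (x + (α : ℂ) • v)) :
    ‖v‖ ≤ (C + 1) / α * ‖x‖ := by
  have h0 : v = A x + (α : ℂ) • A v := by
    rw [← map_smul, ← map_add]
    exact h
  have h1 : (1 - (α : ℂ) • A) ((α : ℂ) • v) = x - (1 - (α : ℂ) • A) x := by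
    have h3 : (1 - (α : ℂ) • A) ((α : ℂ) • v) = (α : ℂ) • (v - (α : ℂ) • A v) := by
      rw [ContinuousLinearMap.sub_apply, ContinuousLinearMap.one_apply,
        ContinuousLinearMap.smul_apply, map_smul, smul_sub]
    have h2 : v - (α : ℂ) • A v = A x := by
      rw [sub_eq_iff_eq_add]
      exact h0
    rw [h3, h2, ContinuousLinearMap.sub_apply, ContinuousLinearMap.one_apply,
      ContinuousLinearMap.smul_apply]
    abel
  obtain ⟨B, hB⟩ : ∃ B : V →L[ℂ] V, B = Ring.inverse (1 - (α : ℂ) • A) := ⟨_, rfl⟩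
  have h4 := congrArg (fun w => B w) h1
  have h5 : ∀ w : V, B ((1 - (α : ℂ) • A) w) = w := by
    intro w
    have := Ring.inverse_mul_cancel _ hu
    rw [← hB] at this
    exact congrArg (fun B : V →L[ℂ] V => B w) this
  simp only [map_sub, h5] at h4
  have h6 : α * ‖v‖ ≤ (C + 1) * ‖x‖ := by
    have h7 : ‖(α : ℂ) • v‖ = α * ‖v‖ := by
      rw [norm_smul, Complex.norm_real, Real.norm_eq_abs, abs_of_pos hα]
    rw [← h7, h4]
    refine (norm_sub_le _ _).trans ?_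
    rw [← hB] at hC
    have h8 := (ContinuousLinearMap.le_opNorm B x).trans
      (mul_le_mul_of_nonneg_right hC (norm_nonneg _))
    linarith
  rw [div_mul_eq_mul_div, le_div_iff₀ hα]
  linarith

theorem jobYG : JobYG := by
  intro L θ α c₁ X Y hCo hθ hα W S hW hS hP T hTc hTf hReg y E hE hE0 η hη
  set μ0 : Measure ℝ := (volume : Measure ℝ).restrict (Set.Ioo (0 : ℝ) 1) with hμ0
  set N : Set ℝ := {k : ℝ | 0 < k ∧ k < 1 ∧ ∃ l ∈ E, ¬ RegB α T l k} with hN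
  have hN0 : volume N = 0 := hReg E hE0
  have hfin : ∫⁻ κ, ‖(y : ℝ → XX L) κ‖ₑ ^ (2 : ℝ) ∂μ0 ≠ ∞ := by
    have := lintegral_rpow_enorm_lt_top_of_eLpNorm_lt_top (p := 2) (by norm_num) (by norm_num)
      (Lp.memLp y).2
    simpa using this.ne
  obtain ⟨δ, hδ, hsm⟩ := exists_pos_setLIntegral_lt_of_measure_lt hfin
    (ε := ENNReal.ofReal (η ^ 2)) (by
      have : 0 < ENNReal.ofReal (η ^ 2) := ENNReal.ofReal_pos.2 (by positivity)
      exact this.ne')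
  have hN' : volume (N ∪ {0, 1}) = 0 := by
    refine measure_union_null hN0 ?_
    exact (Set.toFinite _).measure_zero _
  obtain ⟨U, hNU, hU, hUv⟩ := (N ∪ {0, 1}).exists_isOpen_lt_of_lt δ (by rw [hN']; exact hδ)
  set K : Set ℝ := Set.Icc (0 : ℝ) 1 \ U with hKdef
  have hK : IsCompact K := isCompact_Icc.diff hU
  have hKm : MeasurableSet K := hK.measurableSet
  have hKi : K ⊆ Set.Ioo (0 : ℝ) 1 := by
    rintro k ⟨⟨hk0, hk1⟩, hkU⟩
    refine ⟨lt_of_le_of_ne hk0 ?_, lt_of_le_of_ne hk1 ?_⟩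
    · rintro rfl
      exact hkU (hNU (by simp))
    · rintro rfl
      exact hkU (hNU (by simp))
  have hKr : ∀ p ∈ E ×ˢ K, RegB α T p.1 p.2 := by
    rintro ⟨l, k⟩ ⟨hl, hk⟩
    by_contra hcon
    exact hk.2 (hNU (Or.inl ⟨(hKi hk).1, (hKi hk).2, l, hl, hcon⟩))
  obtain ⟨O, hO, hEK, ε₀, hε₀, C, hC⟩ := compact_reg α T (E ×ˢ K) (hE.prod hK) hKr
  obtain ⟨V, V', hV, hV', hEV, hKV', hVO⟩ := generalized_tube_lemma hE hK hO hEK
  have hm1 := (Lp.memLp y).indicator hKm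
  have hm2 := (Lp.memLp y).indicator hKm.compl
  refine ⟨hm1.toLp _, hm2.toLp _, ?_, ?_, V, hV, hEV, ε₀, hε₀,
    (|C| + 1) / α * ‖hm1.toLp _‖ ^ 2, ?_⟩
  · ext1
    filter_upwards [MemLp.coeFn_toLp hm1, MemLp.coeFn_toLp hm2,
      Lp.coeFn_add (hm1.toLp _) (hm2.toLp _)] with κ h1 h2 h3
    rw [h3, Pi.add_apply, h1, h2, Set.indicator_self_add_compl_apply]
  · rw [Lp.norm_toLp]
    refine ENNReal.toReal_le_of_le_ofReal hη.le ?_
    rw [eLpNorm_indicator_eq_eLpNorm_restrict hKm.compl,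
      eLpNorm_eq_lintegral_rpow_enorm_toReal (by norm_num) (by norm_num)]
    have h1 : ∫⁻ κ in Kᶜ, ‖(y : ℝ → XX L) κ‖ₑ ^ (2 : ℝ) ∂μ0 ≤ ENNReal.ofReal (η ^ 2) := by
      have h2 : μ0.restrict Kᶜ ≤ μ0.restrict U := by
        rw [hμ0, Measure.restrict_restrict hKm.compl, Measure.restrict_restrict hU.measurableSet]
        refine Measure.restrict_mono ?_ le_rfl
        rintro k ⟨hk1, hk2⟩
        refine ⟨?_, hk2⟩
        by_contra hcon
        exact hk1 ⟨⟨hk2.1.le, hk2.2.le⟩, hcon⟩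
      refine (lintegral_mono' h2 le_rfl).trans (hsm U ?_).le
      exact (Measure.restrict_apply_le _ _).trans_lt hUv
    have h3 : (2 : ℝ≥0∞).toReal = 2 := by norm_num
    rw [h3]
    calc (∫⁻ κ in Kᶜ, ‖(y : ℝ → XX L) κ‖ₑ ^ (2 : ℝ) ∂μ0) ^ (1 / (2 : ℝ))
        ≤ (ENNReal.ofReal (η ^ 2)) ^ (1 / (2 : ℝ)) := by gcongr
      _ = ENNReal.ofReal η := by
          rw [ENNReal.ofReal_rpow_of_nonneg (by positivity) (by norm_num),
            ← Real.sqrt_eq_rpow, Real.sqrt_sq hη.le]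
  · intro t ht ε hε hε2
    set y₁ : YY L := hm1.toLp _ with hy1
    set z : ℂ := (t : ℂ) + ε * I with hzdef
    have him : z.im = ε := by simp [hzdef]
    have hz : z.im ≠ 0 := by rw [him]; exact hε.ne'
    set u : HH := AI S W α z (W y₁) with hu
    have hAA : AA S W α z u = W y₁ := AI_right z (AA_unit hP z hz) _
    set v : YY L := ContinuousLinearMap.adjoint W u with hv
    have hu1 : u = mulB (volume : Measure (ℝ × ℝ)) (phiSym θ z hz) (W (y₁ + (α : ℂ) • v)) := by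
      have h1 : u - (z + 1) • S (S u) = W (y₁ + (α : ℂ) • v) := by
        rw [map_add, map_smul, ← hAA, AA_apply]
        abel
      ext1
      rw [← h1]
      filter_upwards [phi_isMul θ z hz (u - (z + 1) • S (S u)), hS u, hS (S u),
        Lp.coeFn_sub u ((z + 1) • S (S u)), Lp.coeFn_smul (z + 1) (S (S u))] with q h2 h3 h4 h5 h6
      rw [h2, h5, Pi.sub_apply, h6, Pi.smul_apply, h4, h3]
      have hpos : 0 < 1 + om θ q := by
        have := om_nonneg θ q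
        linarith
      have hne : ((om θ q : ℂ) - z) ≠ 0 := by
        intro h
        have := congrArg Complex.im h
        simp at this
        exact hz this
      have hsq : (((1 + om θ q) ^ (-(1 / 2) : ℝ) : ℝ) : ℂ) *
          (((1 + om θ q) ^ (-(1 / 2) : ℝ) : ℝ) : ℂ) = ((1 + om θ q : ℝ) : ℂ)⁻¹ := by
        rw [← Complex.ofReal_mul, ← Real.rpow_add hpos]
        have : (-(1 / 2) : ℝ) + -(1 / 2) = -1 := by norm_num
        rw [this, Real.rpow_neg_one, Complex.ofReal_inv]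
      have hne2 : ((1 + om θ q : ℝ) : ℂ) ≠ 0 := by
        exact_mod_cast hpos.ne'
      rw [← mul_assoc ((((1 + om θ q) ^ (-(1 / 2) : ℝ) : ℝ) : ℂ)), hsq, smul_eq_mul]
      field_simp
      push_cast
      ring
    have hfib := jobFibre L θ X Y hCo hθ W hW z hz _ (phi_isMul θ z hz) (T z) (hTc z hz)
      (hTf z hz) (y₁ + (α : ℂ) • v)
    rw [← hu1, ← hv] at hfib
    have hkey : ∀ᵐ κ ∂μ0, ‖⟪(y₁ : ℝ → XX L) κ, (v : ℝ → XX L) κ⟫_ℂ‖ ≤
        (|C| + 1) / α * ‖(y₁ : ℝ → XX L) κ‖ ^ 2 := by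
      filter_upwards [hfib, MemLp.coeFn_toLp hm1, Lp.coeFn_add y₁ ((α : ℂ) • v),
        Lp.coeFn_smul (α : ℂ) v, ae_restrict_mem measurableSet_Ioo] with κ h1 h2 h3 h4 h5
      rw [h3, Pi.add_apply, h4, Pi.smul_apply] at h1
      by_cases hκ : κ ∈ K
      · obtain ⟨h6, h7⟩ := hC (t, κ) (hVO ⟨ht, hKV' hκ⟩) ε hε hε2
        have h8 := inv_bound (T z κ) α hα |C| h6 (h7.trans (le_abs_self C)) _ _ h1
        calc _ ≤ ‖(y₁ : ℝ → XX L) κ‖ * ‖(v : ℝ → XX L) κ‖ := norm_inner_le_norm _ _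
          _ ≤ ‖(y₁ : ℝ → XX L) κ‖ * ((|C| + 1) / α * ‖(y₁ : ℝ → XX L) κ‖) :=
              mul_le_mul_of_nonneg_left h8 (norm_nonneg _)
          _ = _ := by ring
      · have h9 : (y₁ : ℝ → XX L) κ = 0 := by
          rw [hy1, h2, Set.indicator_of_notMem hκ]
        rw [h9]
        simp
    have hnorm : ∫ κ, ‖(y₁ : ℝ → XX L) κ‖ ^ 2 ∂μ0 = ‖y₁‖ ^ 2 := by
      have h1 : ⟪y₁, y₁⟫_ℂ = ∫ κ, ⟪(y₁ : ℝ → XX L) κ, (y₁ : ℝ → XX L) κ⟫_ℂ ∂μ0 := L2.inner_def _ _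
      have h2 : ∀ κ, ⟪(y₁ : ℝ → XX L) κ, (y₁ : ℝ → XX L) κ⟫_ℂ =
          ((‖(y₁ : ℝ → XX L) κ‖ ^ 2 : ℝ) : ℂ) := by
        intro κ
        rw [inner_self_eq_norm_sq_to_K]
        push_cast
        rfl
      rw [inner_self_eq_norm_sq_to_K, integral_congr_ae (Eventually.of_forall h2),
        integral_complex_ofReal] at h1
      have h3 : (((∫ κ, ‖(y₁ : ℝ → XX L) κ‖ ^ 2 ∂μ0 : ℝ) : ℂ)) = ((‖y₁‖ ^ 2 : ℝ) : ℂ) := by
        rw [← h1]
        push_cast
        rfl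
      exact Complex.ofReal_injective h3
    have hin : ⟪W y₁, u⟫_ℂ = ∫ κ, ⟪(y₁ : ℝ → XX L) κ, (v : ℝ → XX L) κ⟫_ℂ ∂μ0 := by
      rw [← ContinuousLinearMap.adjoint_inner_right, ← hv]
      exact L2.inner_def _ _
    rw [hin, ← hnorm, ← integral_const_mul]
    refine norm_integral_le_of_norm_le ?_ hkey
    refine Integrable.const_mul ?_ _
    exact (Lp.memLp y₁).integrable_norm_pow (by norm_num)

end Pool.Agent.U924.LC
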